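import Mathlib
import Pool.Agent.ETS.Far2

/-!
# E-T (MP_12a1af_nt), phase 2: factorial moments on a fibre, prescribed hash values

The same as `ETS.FM` and the counting lemma of `ETS.Far2`, but the hash values with index in
`nfI nf` (regions `m ∈ nf L` of the scales `L`) are prescribed.
-/

open Finset

namespace Pool.Agent.E2F

open Pool.Agent.ETS

section

variable {ι : Type*} [Fintype ι] [DecidableEq ι] {X : ι → Type*} [∀ i, Fintype (X i)]
  [∀ i, DecidableEq (X i)]

variable {Ω : Type*} [Fintype Ω] [DecidableEq Ω]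

open Classical in
/-- **The factorial moment lemma on a fibre.** -/
theorem factMoment_fib (S : Ω → Finset ι) (E : Ω → (∀ i, X i) → Prop)
    (hE : ∀ w x y, (∀ i ∈ S w, y i = x i) → (E w y ↔ E w x)) (R : Ω → Ω → Prop)
    (U₀ U₁ : Finset ι) (hU : U₁ ⊆ U₀) (x₁ : ∀ i, X i) (B : ℝ) (hB0 : 0 ≤ B) (t : ℕ)
    (hB : ∀ T : Finset Ω, T.card ≤ t → ∀ x : (∀ i, X i),
      ∑ y ∈ fib (U₀ ∪ T.biUnion S) x, (nnew E R T y : ℝ) ≤ B * (fib (U₀ ∪ T.biUnion S) x).card) :
    ∀ s ≤ t + 1, ∑ x ∈ fib U₁ x₁, (ntup E R s x : ℝ) ≤ B ^ s * (fib U₁ x₁).card := by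
  -- the indicator of the fibre
  set g0 : (∀ i, X i) → ℝ := fun x => if x ∈ fib U₁ x₁ then 1 else 0 with hg0
  have hg0n : ∀ x, 0 ≤ g0 x := by intro x; simp only [hg0]; split_ifs <;> norm_num
  have hconv : ∀ F : (∀ i, X i) → ℝ, ∑ x ∈ fib U₁ x₁, F x = ∑ x, g0 x * F x := by
    intro F
    simp only [hg0, ite_mul, one_mul, zero_mul]
    rw [← Finset.sum_filter]
    refine Finset.sum_congr ?_ (fun _ _ => rfl)
    ext x; simp
  have hg0c : ∀ U : Finset ι, U₁ ⊆ U → ∀ x y, y ∈ fib U x → g0 y = g0 x := by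
    intro U hU x y hy
    rw [mem_fib] at hy
    have : y ∈ fib U₁ x₁ ↔ x ∈ fib U₁ x₁ := by
      rw [mem_fib, mem_fib]
      constructor
      · intro h i hi
        rw [← hy i (hU hi)]; exact h i hi
      · intro h i hi
        rw [hy i (hU hi)]; exact h i hi
    simp only [hg0, this]
  have hcard : ((fib U₁ x₁).card : ℝ) = ∑ x, g0 x := by
    have := hconv (fun _ => 1)
    simp only [sum_const, nsmul_eq_mul, mul_one] at this
    exact this
  intro s
  rw [hconv, hcard]
  induction s with
  | zero =>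
    intro _
    simp only [pow_zero, one_mul]
    have : ∀ x : (∀ i, X i), (ntup E R 0 x : ℝ) ≤ 1 := by
      intro x
      have : ntup E R 0 x ≤ (univ : Finset (Fin 0 → Ω)).card := Finset.card_le_card (filter_subset _ _)
      have h2 : (univ : Finset (Fin 0 → Ω)).card = 1 := by simp
      rw [h2] at this
      exact_mod_cast this
    refine Finset.sum_le_sum (fun x _ => ?_)
    calc g0 x * (ntup E R 0 x : ℝ) ≤ g0 x * 1 := mul_le_mul_of_nonneg_left (this x) (hg0n x)
      _ = g0 x := mul_one _
  | succ s ih =>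
    intro hs
    have ih' := ih (by omega)
    -- decompose the tuples
    have key : ∀ x : (∀ i, X i), (ntup E R (s+1) x : ℝ) =
        ∑ f : Fin s → Ω, (if (∀ j, E (f j) x) ∧ ∀ i j, i < j → R (f i) (f j) then (1:ℝ) else 0) *
          (nnew E R (univ.image f) x : ℝ) := by
      intro x
      unfold ntup nnew
      rw [Finset.card_filter]
      push_cast
      rw [← (Fin.snocEquiv (fun _ : Fin (s+1) => Ω)).sum_comp]
      rw [Fintype.sum_prod_type, Finset.sum_comm]
      refine Finset.sum_congr rfl (fun f _ => ?_)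
      rw [Finset.card_filter]
      push_cast
      rw [Finset.mul_sum]
      refine Finset.sum_congr rfl (fun w _ => ?_)
      have hiff : ((∀ j, E ((Fin.snocEquiv (fun _ : Fin (s+1) => Ω)) (w, f) j) x) ∧
          ∀ i j, i < j → R ((Fin.snocEquiv (fun _ : Fin (s+1) => Ω)) (w, f) i)
            ((Fin.snocEquiv (fun _ : Fin (s+1) => Ω)) (w, f) j)) ↔
          (((∀ j, E (f j) x) ∧ ∀ i j, i < j → R (f i) (f j)) ∧
            (E w x ∧ ∀ w' ∈ univ.image f, R w' w)) := by
        simp only [Fin.snocEquiv, Equiv.coe_fn_mk, Finset.mem_image, Finset.mem_univ, true_and,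
          forall_exists_index, forall_apply_eq_imp_iff]
        constructor
        · rintro ⟨h1, h2⟩
          refine ⟨⟨fun j => ?_, fun i j hij => ?_⟩, ?_, fun j => ?_⟩
          · simpa using h1 j.castSucc
          · have := h2 i.castSucc j.castSucc (by simpa using hij)
            simpa using this
          · simpa using h1 (Fin.last s)
          · have := h2 j.castSucc (Fin.last s) (Fin.castSucc_lt_last j)
            simpa using this
        · rintro ⟨⟨h1, h2⟩, h3, h4⟩
          refine ⟨fun j => ?_, fun i j hij => ?_⟩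
          · refine Fin.lastCases ?_ (fun j => ?_) j
            · simpa using h3
            · simpa using h1 j
          · revert hij
            refine Fin.lastCases ?_ (fun j => ?_) j
            · refine Fin.lastCases ?_ (fun i => ?_) i
              · intro h; exact absurd h (lt_irrefl _)
              · intro _
                simpa using h4 i
            · refine Fin.lastCases ?_ (fun i => ?_) i
              · intro h
                exact absurd h (not_lt.mpr (Fin.le_last _))
              · intro h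
                have := h2 i j (by simpa using h)
                simpa using this
      by_cases hA : ((∀ j, E (f j) x) ∧ ∀ i j, i < j → R (f i) (f j))
      · by_cases hB : (E w x ∧ ∀ w' ∈ univ.image f, R w' w)
        · rw [if_pos (hiff.mpr ⟨hA, hB⟩), if_pos hA, if_pos hB]; ring
        · rw [if_neg (fun h => hB (hiff.mp h).2), if_pos hA, if_neg hB]; ring
      · rw [if_neg (fun h => hA (hiff.mp h).1), if_neg hA]; ring
    calc ∑ x : (∀ i, X i), g0 x * (ntup E R (s+1) x : ℝ)
        = ∑ f : Fin s → Ω, ∑ x : (∀ i, X i),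
          (g0 x * (if (∀ j, E (f j) x) ∧ ∀ i j, i < j → R (f i) (f j) then (1:ℝ) else 0)) *
          (nnew E R (univ.image f) x : ℝ) := by
          rw [Finset.sum_comm]
          refine Finset.sum_congr rfl (fun x _ => ?_)
          rw [key x, Finset.mul_sum]
          exact Finset.sum_congr rfl (fun f _ => (mul_assoc _ _ _).symm)
      _ ≤ ∑ f : Fin s → Ω, B * ∑ x : (∀ i, X i),
          (g0 x * (if (∀ j, E (f j) x) ∧ ∀ i j, i < j → R (f i) (f j) then (1:ℝ) else 0)) := by
          refine Finset.sum_le_sum (fun f _ => ?_)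
          refine sum_avg_le (U₀ ∪ (univ.image f).biUnion S) _ _ ?_ ?_ B ?_
          · intro x y hy
            have e1 := hg0c (U₀ ∪ (univ.image f).biUnion S)
              (hU.trans subset_union_left) x y hy
            rw [mem_fib] at hy
            have : ∀ j, E (f j) y ↔ E (f j) x := by
              intro j
              refine hE (f j) x y (fun i hi => hy i ?_)
              refine mem_union_right _ (mem_biUnion.mpr ⟨f j, mem_image_of_mem _ (mem_univ j), hi⟩)
            have h2 : ((∀ j, E (f j) y) ∧ ∀ i j, i < j → R (f i) (f j)) ↔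
                ((∀ j, E (f j) x) ∧ ∀ i j, i < j → R (f i) (f j)) := by
              simp only [this]
            simp only [h2, e1]
          · intro x
            refine mul_nonneg (hg0n x) ?_
            split_ifs <;> norm_num
          · intro x
            refine hB (univ.image f) ?_ x
            calc (univ.image f).card ≤ (univ : Finset (Fin s)).card := Finset.card_image_le
              _ = s := by simp
              _ ≤ t := by omega
      _ = B * ∑ x : (∀ i, X i), g0 x * (ntup E R s x : ℝ) := by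
          rw [← Finset.mul_sum, Finset.sum_comm]
          congr 1
          refine Finset.sum_congr rfl (fun x _ => ?_)
          rw [← Finset.mul_sum]
          congr 1
          unfold ntup
          rw [Finset.card_filter]
          push_cast
          rfl
      _ ≤ B * (B ^ s * ∑ x, g0 x) := mul_le_mul_of_nonneg_left ih' hB0
      _ = B ^ (s+1) * ∑ x, g0 x := by ring

end

section

variable {M N Kmax : ℕ} (lay : ℕ → Lay N) (nf : ℕ → Finset ℕ)

/-- the prescribed hash indices -/
def nfI (nf : ℕ → Finset ℕ) : Finset (Ind M N Kmax) :=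
  univ.filter (fun q => q.2.1.val ∈ nf q.1.val)

lemma mem_nfI {q : Ind M N Kmax} : q ∈ nfI nf ↔ q.2.1.val ∈ nf q.1.val := by simp [nfI]

/-- the total length of the prescribed regions -/
def nlen (M : ℕ) {N : ℕ} (lay : ℕ → Lay N) (nf : ℕ → Finset ℕ) (L : ℕ) : ℕ :=
  ∑ m ∈ (range M).filter (fun m => m ∈ nf L), (lay L).len m

/-- fresh hash indices used by `z` in the regions `m ∈ [i, M)` -/
def fidx (L : Fin (Kmax+1)) (z : Fin M → Fin N) (i : ℕ) : Finset (Ind M N Kmax) :=
  (univ.filter (fun m : Fin M => i ≤ m.val ∧ m.val ∉ nf L.val)).image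
    (fun m => (L, m, key (lay L) m.val z))

lemma mem_fidx {L : Fin (Kmax+1)} {z : Fin M → Fin N} {i : ℕ} {q : Ind M N Kmax} :
    q ∈ fidx lay nf L z i ↔ ∃ m : Fin M, i ≤ m.val ∧ m.val ∉ nf L.val ∧
      q = (L, m, key (lay L) m.val z) := by
  simp only [fidx, mem_image, mem_filter, mem_univ, true_and]
  constructor
  · rintro ⟨m, hm, rfl⟩; exact ⟨m, hm.1, hm.2, rfl⟩
  · rintro ⟨m, hm, hm2, rfl⟩; exact ⟨m, ⟨hm, hm2⟩, rfl⟩

lemma prod_fidx (hG : GoodLay M lay Kmax) (L : Fin (Kmax+1)) (z : Fin M → Fin N) {i : ℕ}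
    (hi : i ≤ M) :
    2 ^ (L.val - (lay L).bot i) ≤
      2 ^ nlen M lay nf L.val * ∏ q ∈ fidx lay nf L z i, Fintype.card (Xsp lay q) := by
  have h0 := prod_hidx lay hG L z hi
  have hsplit : hidx lay L z i = fidx lay nf L z i ∪
      (univ.filter (fun m : Fin M => i ≤ m.val ∧ m.val ∈ nf L.val)).image
        (fun m => ((L, m, key (lay L) m.val z) : Ind M N Kmax)) := by
    ext q
    rw [mem_union, mem_hidx, mem_fidx, mem_image]
    constructor
    · rintro ⟨m, hm, rfl⟩
      by_cases h : m.val ∈ nf L.val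
      · right
        exact ⟨m, by simp [hm, h], rfl⟩
      · left
        exact ⟨m, hm, h, rfl⟩
    · rintro (⟨m, hm, _, rfl⟩ | ⟨m, hm, rfl⟩)
      · exact ⟨m, hm, rfl⟩
      · rw [mem_filter] at hm
        exact ⟨m, hm.2.1, rfl⟩
  have hdisj : Disjoint (fidx lay nf L z i)
      ((univ.filter (fun m : Fin M => i ≤ m.val ∧ m.val ∈ nf L.val)).image
        (fun m => ((L, m, key (lay L) m.val z) : Ind M N Kmax))) := by
    rw [Finset.disjoint_left]
    intro q hq hq'
    rw [mem_fidx] at hq
    rw [mem_image] at hq'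
    obtain ⟨m, _, h1, rfl⟩ := hq
    obtain ⟨m', hm', h⟩ := hq'
    rw [mem_filter] at hm'
    simp only [Prod.mk.injEq] at h
    rw [h.2.1] at hm'
    exact h1 hm'.2.2
  rw [hsplit, prod_union hdisj] at h0
  rw [← h0, mul_comm]
  refine Nat.mul_le_mul_right _ ?_
  rw [prod_image (by
    intro a _ b _ hab
    simp only [Prod.mk.injEq] at hab
    exact hab.2.1)]
  simp only [Fintype.card_fin]
  rw [Finset.prod_pow_eq_pow_sum]
  refine Nat.pow_le_pow_right (by norm_num) ?_
  unfold nlen
  have h1 : ∑ m ∈ univ.filter (fun m : Fin M => i ≤ m.val ∧ m.val ∈ nf L.val), (lay L).len m.val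
      = ∑ m ∈ (range M).filter (fun m => i ≤ m ∧ m ∈ nf L.val), (lay L).len m := by
    rw [Finset.sum_filter, Finset.sum_filter]
    exact Fin.sum_univ_eq_sum_range
      (fun m => if i ≤ m ∧ m ∈ nf L.val then (lay L).len m else 0) M
  rw [h1]
  refine Finset.sum_le_sum_of_subset ?_
  intro m hm
  rw [mem_filter] at hm ⊢
  exact ⟨hm.1, hm.2.2⟩

/-- the number of hash values in a fibre for which the pair `(z, z')` is a solution -/
lemma card_sol_le (hG : GoodLay M lay Kmax) {K K' : Fin (Kmax+1)} (hKK : K' < K) (n : ℕ)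
    (z z' : Fin M → Fin N) (U : Finset (Ind M N Kmax)) (x : ∀ q : Ind M N Kmax, Xsp lay q)
    {i i' : ℕ} (hi : i < M) (hi' : i' < M)
    (h1 : ∀ m : Fin M, m.val ≤ i → (K, m, key (lay K) m.val z) ∈ U)
    (h2 : ∀ m : Fin M, i < m.val → m.val ∉ nf K.val → (K, m, key (lay K) m.val z) ∉ U)
    (h1' : ∀ m : Fin M, m.val ≤ i' → (K', m, key (lay K') m.val z') ∈ U)
    (h2' : ∀ m : Fin M, i' < m.val → m.val ∉ nf K'.val → (K', m, key (lay K') m.val z') ∉ U)
    (μ : ℕ)
    (hμ : μ = max ((lay K').bot (i'+1)) (min ((lay K).bot (i+1)) K'.val)) :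
    ((fib U x).filter (fun y => elt lay K y z + elt lay K' y z' = n)).card *
      2 ^ ((K.val - (lay K).bot (i+1)) + (K'.val - (lay K').bot (i'+1))) ≤
      2 ^ (nlen M lay nf K.val + nlen M lay nf K'.val) * (2 ^ (K'.val - μ) * (fib U x).card) := by
  classical
  have hKm : K.val ≤ Kmax := by have := K.isLt; omega
  have hKm' : K'.val ≤ Kmax := by have := K'.isLt; omega
  set Q := fidx lay nf K z (i+1) ∪ fidx lay nf K' z' (i'+1) with hQ
  have hdQ : Disjoint (fidx lay nf K z (i+1)) (fidx lay nf K' z' (i'+1)) := by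
    rw [Finset.disjoint_left]
    intro q hq hq'
    rw [mem_fidx] at hq hq'
    obtain ⟨m, _, _, rfl⟩ := hq
    obtain ⟨m', _, _, h⟩ := hq'
    simp only [Prod.mk.injEq] at h
    exact absurd h.1 (ne_of_gt hKK)
  have hdU : Disjoint U Q := by
    rw [Finset.disjoint_left]
    intro q hq hq'
    rw [hQ, mem_union, mem_fidx, mem_fidx] at hq'
    rcases hq' with ⟨m, hm, hm2, rfl⟩ | ⟨m, hm, hm2, rfl⟩
    · exact h2 m (by omega) hm2 hq
    · exact h2' m (by omega) hm2 hq
  have hcard := card_fib_union (X := fun q : Ind M N Kmax => Xsp lay q) hdU x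
  have hprod : 2 ^ ((K.val - (lay K).bot (i+1)) + (K'.val - (lay K').bot (i'+1))) ≤
      2 ^ (nlen M lay nf K.val + nlen M lay nf K'.val) *
        ∏ q ∈ Q, Fintype.card (Xsp lay q) := by
    rw [hQ, prod_union hdQ, pow_add, pow_add]
    calc _ ≤ (2 ^ nlen M lay nf K.val * ∏ q ∈ fidx lay nf K z (i+1), Fintype.card (Xsp lay q)) *
          (2 ^ nlen M lay nf K'.val * ∏ q ∈ fidx lay nf K' z' (i'+1), Fintype.card (Xsp lay q)) :=
          Nat.mul_le_mul (prod_fidx lay nf hG K z (by omega)) (prod_fidx lay nf hG K' z' (by omega))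
      _ = _ := by ring
  -- main count
  set Y := (fib U x).filter (fun y => elt lay K y z + elt lay K' y z' = n) with hY
  set v : (∀ q : Ind M N Kmax, Xsp lay q) → ℕ :=
    fun y => pval (lay K').bot (dig lay K' y z') M with hv
  have hb0 := hG.bot0 K hKm
  have hb0' := hG.bot0 K' hKm'
  have hbm := hG.mono K hKm
  have hbm' := hG.mono K' hKm'
  have hagree : ∀ y ∈ Y, ∀ y' ∈ Y, pval (lay K).bot (dig lay K y z) (i+1) =
      pval (lay K).bot (dig lay K y' z) (i+1) := by
    intro y hy y' hy'
    rw [hY, mem_filter, mem_fib] at hy hy'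
    refine pval_congr (fun m hm => dig_congr lay (fun hmM => ?_))
    rw [hy.1 _ (h1 ⟨m, hmM⟩ (by simpa using Nat.lt_succ_iff.mp hm)),
      hy'.1 _ (h1 ⟨m, hmM⟩ (by simpa using Nat.lt_succ_iff.mp hm))]
  have hagree' : ∀ y ∈ Y, ∀ y' ∈ Y, pval (lay K').bot (dig lay K' y z') (i'+1) =
      pval (lay K').bot (dig lay K' y' z') (i'+1) := by
    intro y hy y' hy'
    rw [hY, mem_filter, mem_fib] at hy hy'
    refine pval_congr (fun m hm => dig_congr lay (fun hmM => ?_))
    rw [hy.1 _ (h1' ⟨m, hmM⟩ (by simpa using Nat.lt_succ_iff.mp hm)),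
      hy'.1 _ (h1' ⟨m, hmM⟩ (by simpa using Nat.lt_succ_iff.mp hm))]
  have hvmod : ∀ y ∈ Y, ∀ y' ∈ Y, v y ≡ v y' [MOD 2 ^ μ] := by
    intro y hy y' hy'
    have hA : v y ≡ v y' [MOD 2 ^ (lay K').bot (i'+1)] := by
      obtain ⟨u, hu⟩ := pval_split (w := dig lay K' y z') hbm' (j := i'+1) (m := M) (by omega)
      obtain ⟨u', hu'⟩ := pval_split (w := dig lay K' y' z') hbm' (j := i'+1) (m := M) (by omega)
      simp only [hv]
      rw [hu, hu', hagree' y hy y' hy']
      refine Nat.ModEq.add_left _ ?_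
      exact (Nat.modEq_zero_iff_dvd.mpr (Dvd.intro _ rfl)).trans
        (Nat.modEq_zero_iff_dvd.mpr (Dvd.intro _ rfl)).symm
    have hB : v y ≡ v y' [MOD 2 ^ (lay K).bot (i+1)] := by
      obtain ⟨u, hu⟩ := pval_split (w := dig lay K y z) hbm (j := i+1) (m := M) (by omega)
      obtain ⟨u', hu'⟩ := pval_split (w := dig lay K y' z) hbm (j := i+1) (m := M) (by omega)
      have hyn := (mem_filter.mp hy).2
      have hyn' := (mem_filter.mp hy').2
      unfold elt at hyn hyn'
      rw [hu] at hyn
      rw [hu', ← hagree y hy y' hy'] at hyn'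
      simp only [hv]
      have e : 2 ^ (lay K).bot (i+1) * u + pval (lay K').bot (dig lay K' y z') M =
          2 ^ (lay K).bot (i+1) * u' + pval (lay K').bot (dig lay K' y' z') M := by omega
      have e2 : (2 ^ (lay K).bot (i+1) * u + pval (lay K').bot (dig lay K' y z') M)
          ≡ (2 ^ (lay K).bot (i+1) * u' + pval (lay K').bot (dig lay K' y' z') M)
          [MOD 2 ^ (lay K).bot (i+1)] := by rw [e]
      have f1 : (2 ^ (lay K).bot (i+1) * u) ≡ (2 ^ (lay K).bot (i+1) * u')
          [MOD 2 ^ (lay K).bot (i+1)] :=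
        (Nat.modEq_zero_iff_dvd.mpr (Dvd.intro _ rfl)).trans
        (Nat.modEq_zero_iff_dvd.mpr (Dvd.intro _ rfl)).symm
      exact Nat.ModEq.add_left_cancel f1 e2
    rw [hμ]
    rcases le_total ((lay K').bot (i'+1)) (min ((lay K).bot (i+1)) K'.val) with h | h
    · rw [max_eq_right h]
      exact hB.of_dvd (pow_dvd_pow 2 (min_le_left _ _))
    · rw [max_eq_left h]
      exact hA
  have hμK : μ ≤ K'.val := by
    rw [hμ]
    refine max_le ?_ (min_le_right _ _)
    have h9 : (lay K').bot (i'+1) ≤ (lay K').bot M := hbm' (by omega)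
    rwa [hG.top K' hKm'] at h9
  have hvlt : ∀ y, v y < 2 ^ K'.val := by
    intro y
    have := pval_lt hb0' hbm' (dig_lt lay K' y z') M
    rw [hG.top K' hKm'] at this
    exact this
  have himg : (Y.image v).card ≤ 2 ^ (K'.val - μ) := by
    rcases Y.eq_empty_or_nonempty with hYe | ⟨y₀, hy₀⟩
    · rw [hYe]; simp
    · have : (Y.image v).card ≤ (range (2 ^ (K'.val - μ))).card := by
        refine Finset.card_le_card_of_injOn (fun w => w / 2 ^ μ) ?_ ?_
        · intro w hw
          obtain ⟨y, hy, rfl⟩ := mem_image.mp (Finset.mem_coe.mp hw)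
          simp only [coe_range, Set.mem_Iio]
          rw [Nat.div_lt_iff_lt_mul (by positivity), ← pow_add]
          have : K'.val - μ + μ = K'.val := by omega
          rw [this]
          exact hvlt y
        · intro w hw w' hw' hww
          obtain ⟨y, hy, rfl⟩ := mem_image.mp (Finset.mem_coe.mp hw)
          obtain ⟨y', hy', rfl⟩ := mem_image.mp (Finset.mem_coe.mp hw')
          have a1 := Nat.div_add_mod (v y) (2 ^ μ)
          have a2 := Nat.div_add_mod (v y') (2 ^ μ)
          have a3 : v y % 2 ^ μ = v y' % 2 ^ μ := hvmod y hy y' hy'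
          simp only at hww
          rw [← a1, ← a2, hww, a3]
      simpa using this
  have hfibc : ∀ w ∈ Y.image v, (Y.filter (fun y => v y = w)).card ≤ (fib (U ∪ Q) x).card := by
    intro w hw
    obtain ⟨y₀, hy₀, rfl⟩ := mem_image.mp hw
    rw [card_fib_const (U ∪ Q) x y₀]
    refine card_le_card ?_
    intro y hy
    rw [mem_filter] at hy
    obtain ⟨hyY, hvy⟩ := hy
    rw [mem_fib]
    intro q hq
    rw [mem_union] at hq
    have hyU := (mem_filter.mp hyY).1
    have hyn := (mem_filter.mp hyY).2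
    have hyU₀ := (mem_filter.mp hy₀).1
    have hyn₀ := (mem_filter.mp hy₀).2
    rw [mem_fib] at hyU hyU₀
    rcases hq with hq | hq
    · rw [hyU q hq, hyU₀ q hq]
    · have hv2 : pval (lay K').bot (dig lay K' y z') M = pval (lay K').bot (dig lay K' y₀ z') M := hvy
      have hv1 : pval (lay K).bot (dig lay K y z) M = pval (lay K).bot (dig lay K y₀ z) M := by
        unfold elt at hyn hyn₀
        omega
      rw [hQ, mem_union, mem_fidx, mem_fidx] at hq
      rcases hq with ⟨m, hm, _, rfl⟩ | ⟨m, hm, _, rfl⟩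
      · exact hash_eq_of_dig_eq lay
          (pval_inj hb0 hbm (dig_lt lay K y z) (dig_lt lay K y₀ z) hv1 m.val m.isLt)
      · exact hash_eq_of_dig_eq lay
          (pval_inj hb0' hbm' (dig_lt lay K' y z') (dig_lt lay K' y₀ z') hv2 m.val m.isLt)
  have hYc := Finset.card_le_mul_card_image Y _ hfibc
  rw [hcard]
  calc Y.card * 2 ^ ((K.val - (lay K).bot (i+1)) + (K'.val - (lay K').bot (i'+1)))
      ≤ ((fib (U ∪ Q) x).card * (Y.image v).card) *
        2 ^ ((K.val - (lay K).bot (i+1)) + (K'.val - (lay K').bot (i'+1))) :=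
        Nat.mul_le_mul_right _ hYc
    _ ≤ ((fib (U ∪ Q) x).card * 2 ^ (K'.val - μ)) *
        (2 ^ (nlen M lay nf K.val + nlen M lay nf K'.val) *
        ∏ q ∈ Q, Fintype.card (Xsp lay q)) :=
        Nat.mul_le_mul (Nat.mul_le_mul_left _ himg) hprod
    _ = _ := by ring

end

end Pool.Agent.E2F
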