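import Mathlib
import Pool.Agent.E2.FC
import Pool.Agent.Helper3.ETF.Count

/-!
# E-T (MP_12a1af_nt), phase 2: existence of good hash functions with prescribed values

Result: `exists_goodP`: there is a hash function with the prescribed values such that for all scales
`K` and all `n` there are less than `s K` far pairs `(a, a')`, `a` of scale `K`, with the sum `n`.
-/

open Finset

namespace Pool.Agent.E2F

open Pool.Agent.ETS
open Pool.Agent.ETP (FCand vars mem_vars AK PK FarP AK_bounds elt_lt)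

section

variable {M N Kmax : ℕ} (lay : ℕ → Lay N) (pad : ℕ → ℕ) (nf : ℕ → Finset ℕ)

/-- the variables below the region `m` -/
def pre (m : ℕ) (z : Fin M → Fin N) : Fin M → Option (Fin N) :=
  fun j => if j.val < m then some (z j) else none

lemma pre_eq_iff {m : ℕ} {z z' : Fin M → Fin N} :
    pre m z = pre m z' ↔ ∀ j : Fin M, j.val < m → z j = z' j := by
  constructor
  · intro h j hj
    have := congrFun h j
    simpa [pre, hj] using this
  · intro h
    funext j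
    by_cases hj : j.val < m
    · simp [pre, hj, h j hj]
    · simp [pre, hj]

open Classical in
/-- prefixes of the variables of `a` in the far solutions of `a + a' = n` -/
noncomputable def farPre (ct : ℕ → ℕ) (K : Fin (Kmax+1)) (K0 g n : ℕ)
    (x : ∀ q : Ind M N Kmax, Xsp lay q) : Finset (Fin M → Option (Fin N)) :=
  (univ.filter (fun w : Cand M N Kmax => IsSol lay K g n w x ∧ K0 ≤ w.1.val)).image
    (fun w => pre (ct K) w.2.1)

/-- expected number of new solutions -/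
lemma nnew_far_le (hG : GoodLay M lay Kmax) (hM : ∀ L ≤ Kmax, pad L + 2 ≤ M)
    (hn : ∀ L ≤ Kmax, pad L + 1 ∉ nf L) (ct : ℕ → ℕ)
    (hV : ∀ L ≤ Kmax, ∀ i < M, ((lay L).V i).card ^ 2 ≤ 2 ^ (lay L).len i)
    (hV0 : ∀ L ≤ Kmax, ∀ i ≤ pad L, ((lay L).V i).card ≤ 1)
    (K : Fin (Kmax+1)) (hct : pad K + 1 ≤ ct K) (hct2 : ct K < M)
    (K0 g : ℕ) (hg : 1 ≤ g) (n : ℕ) (ε : ℝ) (hε0 : 0 ≤ ε) (mm : ℕ)
    (hmm : ∀ L, K0 ≤ L → L ≤ K.val → M - pad L ≤ mm) (Nb : ℕ → ℕ → ℕ → ℕ)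
    (hN : ∀ K' : Fin (Kmax+1), K0 ≤ K'.val → K'.val + g ≤ K.val →
      ∀ i i', pad K + 1 ≤ i → pad K' + 1 ≤ i' → i ≤ ct K → i' < M → i ∉ nf K → i' ∉ nf K' →
      ∀ a κ₁ κ₂ a' κ₁' κ₂' co co',
      a < 2 ^ (lay K).bot (i-1) → a' < 2 ^ (lay K').bot (i'-1) →
      (ConsSet lay K K' i i' n a κ₁ κ₂ a' κ₁' κ₂' co co').card ≤ Nb K' i i')
    (hε : ∀ K' : Fin (Kmax+1), K0 ≤ K'.val → K'.val + g ≤ K.val →
      ∀ i i', pad K + 1 ≤ i → pad K' + 1 ≤ i' → i ≤ ct K → i' < M → i ∉ nf K → i' ∉ nf K' →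
        (Nb K' i i' : ℝ) * phi lay K K' i i' * 2 ^ (nlen M lay nf K + nlen M lay nf K') ≤ ε)
    (t : ℕ) (T : Finset (FCand M N Kmax K0 g K)) (hT : T.card ≤ t)
    (x : ∀ q : Ind M N Kmax, Xsp lay q) :
    ∑ y ∈ fib (U0 pad nf ∪ T.biUnion (fun w => Sidx lay K w.1)) x,
      (nnew (fun (w : FCand M N Kmax K0 g K) y => IsSol lay K g n w.1 y)
        (fun w' w => Rdiff ct K w'.1 w.1) T y : ℝ) ≤
      ((K.val : ℝ) * (mm : ℝ) ^ 2 * (2 * t + 1) ^ 2 * ε) *
        (fib (U0 pad nf ∪ T.biUnion (fun w => Sidx lay K w.1)) x).card := by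
  classical
  set T' : Finset (Cand M N Kmax) := T.image (fun w => w.1) with hT'
  have hUeq : U0 pad nf ∪ T.biUnion (fun w => Sidx lay K w.1) = Uof lay pad nf K T' := by
    unfold Uof
    rw [hT', Finset.image_biUnion]
  rw [hUeq]
  set U := Uof lay pad nf K T' with hU
  have hT'c : T'.card ≤ t := (card_image_le).trans hT
  have hT'K : ∀ w ∈ T', w.1 ≠ K := by
    intro w hw h
    rw [hT', mem_image] at hw
    obtain ⟨w', _, rfl⟩ := hw
    have h1 := w'.2.2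
    rw [h] at h1
    omega
  -- sum over candidates
  have h1 : ∑ y ∈ fib U x,
      (nnew (fun (w : FCand M N Kmax K0 g K) y => IsSol lay K g n w.1 y)
        (fun w' w => Rdiff ct K w'.1 w.1) T y : ℝ) ≤
      ∑ K' ∈ univ.filter (fun K' : Fin (Kmax+1) => K0 ≤ K'.val ∧ K'.val + g ≤ K.val),
        ∑ zz : (Fin M → Fin N) × (Fin M → Fin N),
      (if (∀ m : Fin M, zz.1 m ∈ (lay K).V m) ∧ (∀ m : Fin M, zz.2 m ∈ (lay K').V m) ∧
          (∀ w' ∈ T', Rdiff ct K w' (K', zz.1, zz.2)) then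
        (((fib U x).filter
          (fun y => elt lay K y zz.1 + elt lay K' y zz.2 = n)).card : ℝ)
        else 0) := by
    have e1 : ∀ y, (nnew (fun (w : FCand M N Kmax K0 g K) y => IsSol lay K g n w.1 y)
        (fun w' w => Rdiff ct K w'.1 w.1) T y : ℝ) ≤
        ∑ K' ∈ univ.filter (fun K' : Fin (Kmax+1) => K0 ≤ K'.val ∧ K'.val + g ≤ K.val),
        ∑ zz : (Fin M → Fin N) × (Fin M → Fin N),
        (if (∀ m : Fin M, zz.1 m ∈ (lay K).V m) ∧ (∀ m : Fin M, zz.2 m ∈ (lay K').V m) ∧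
          (∀ w' ∈ T', Rdiff ct K w' (K', zz.1, zz.2)) then
          (if elt lay K y zz.1 + elt lay K' y zz.2 = n then (1:ℝ) else 0) else 0) := by
      intro y
      have e2 : nnew (fun (w : FCand M N Kmax K0 g K) y => IsSol lay K g n w.1 y)
        (fun w' w => Rdiff ct K w'.1 w.1) T y ≤
        (((univ.filter (fun K' : Fin (Kmax+1) => K0 ≤ K'.val ∧ K'.val + g ≤ K.val)) ×ˢ
          (univ : Finset ((Fin M → Fin N) × (Fin M → Fin N)))).filter (fun p =>
            ((∀ m : Fin M, p.2.1 m ∈ (lay K).V m) ∧ (∀ m : Fin M, p.2.2 m ∈ (lay p.1).V m) ∧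
          (∀ w' ∈ T', Rdiff ct K w' (p.1, p.2.1, p.2.2))) ∧
            elt lay K y p.2.1 + elt lay p.1 y p.2.2 = n)).card := by
        unfold nnew
        refine card_le_card_of_injOn (fun w => (w.1.1, (w.1.2.1, w.1.2.2))) ?_ ?_
        · intro w hw
          have hw' := hw
          simp only [coe_filter, mem_univ, true_and, Set.mem_ofPred_eq] at hw'
          obtain ⟨hs, hr⟩ := hw'
          obtain ⟨s1, s2, s3, s4⟩ := hs
          simp only [coe_filter, mem_product, mem_filter, mem_univ, true_and, and_true,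
            Set.mem_ofPred_eq]
          refine ⟨⟨w.2.1, w.2.2⟩, ⟨s2, s3, ?_⟩, s4⟩
          intro w' hw'
          rw [hT', mem_image] at hw'
          obtain ⟨w'', hw'', rfl⟩ := hw'
          exact hr w'' hw''
        · intro a _ b _ hab
          simp only [Prod.mk.injEq] at hab
          apply Subtype.ext
          exact Prod.ext hab.1 (Prod.ext hab.2.1 hab.2.2)
      have e3 : (((((univ.filter (fun K' : Fin (Kmax+1) => K0 ≤ K'.val ∧ K'.val + g ≤ K.val)) ×ˢ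
          (univ : Finset ((Fin M → Fin N) × (Fin M → Fin N)))).filter (fun p =>
            ((∀ m : Fin M, p.2.1 m ∈ (lay K).V m) ∧ (∀ m : Fin M, p.2.2 m ∈ (lay p.1).V m) ∧
          (∀ w' ∈ T', Rdiff ct K w' (p.1, p.2.1, p.2.2))) ∧
            elt lay K y p.2.1 + elt lay p.1 y p.2.2 = n)).card : ℕ) : ℝ) =
          ∑ K' ∈ univ.filter (fun K' : Fin (Kmax+1) => K0 ≤ K'.val ∧ K'.val + g ≤ K.val),
        ∑ zz : (Fin M → Fin N) × (Fin M → Fin N),
        (if (∀ m : Fin M, zz.1 m ∈ (lay K).V m) ∧ (∀ m : Fin M, zz.2 m ∈ (lay K').V m) ∧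
          (∀ w' ∈ T', Rdiff ct K w' (K', zz.1, zz.2)) then
          (if elt lay K y zz.1 + elt lay K' y zz.2 = n then (1:ℝ) else 0) else 0) := by
        rw [Finset.card_filter, Finset.sum_product]
        push_cast
        refine Finset.sum_congr rfl (fun K' _ => Finset.sum_congr rfl (fun zz _ => ?_))
        by_cases hA : ((∀ m : Fin M, zz.1 m ∈ (lay K).V m) ∧ (∀ m : Fin M, zz.2 m ∈ (lay K').V m) ∧
          (∀ w' ∈ T', Rdiff ct K w' (K', zz.1, zz.2)))
        · by_cases hB : elt lay K y zz.1 + elt lay K' y zz.2 = n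
          · rw [if_pos ⟨hA, hB⟩, if_pos hA, if_pos hB]
          · rw [if_neg (fun h => hB h.2), if_pos hA, if_neg hB]
        · rw [if_neg (fun h => hA h.1), if_neg hA]
      rw [← e3]
      exact_mod_cast e2
    refine (Finset.sum_le_sum (fun y _ => e1 y)).trans (le_of_eq ?_)
    rw [Finset.sum_comm]
    refine Finset.sum_congr rfl (fun K' _ => ?_)
    rw [Finset.sum_comm]
    refine Finset.sum_congr rfl (fun zz _ => ?_)
    split_ifs with hA
    · rw [Finset.card_filter]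
      push_cast
      rfl
    · simp
  refine h1.trans ?_
  have h2 : ∀ K' ∈ univ.filter (fun K' : Fin (Kmax+1) => K0 ≤ K'.val ∧ K'.val + g ≤ K.val),
      ∑ zz : (Fin M → Fin N) × (Fin M → Fin N),
      (if (∀ m : Fin M, zz.1 m ∈ (lay K).V m) ∧ (∀ m : Fin M, zz.2 m ∈ (lay K').V m) ∧
          (∀ w' ∈ T', Rdiff ct K w' (K', zz.1, zz.2)) then
        (((fib U x).filter
          (fun y => elt lay K y zz.1 + elt lay K' y zz.2 = n)).card : ℝ)
        else 0) ≤ ((mm : ℝ) ^ 2 * (2 * t + 1) ^ 2 * ε) * (fib U x).card := by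
    intro K' hK'
    rw [mem_filter] at hK'
    obtain ⟨_, h0, h0'⟩ := hK'
    have hKK : K' < K := by
      rw [Fin.lt_def]; omega
    refine (far_scale lay pad nf hG hM hn ct hV hV0 hKK hct hct2 n ε (Nb K') (hN K' h0 h0') hε0
      (hε K' h0 h0') T' hT'K x).trans ?_
    refine mul_le_mul_of_nonneg_right ?_ (by positivity)
    refine mul_le_mul_of_nonneg_right ?_ hε0
    have a1 : ((M - pad K : ℕ) : ℝ) ≤ mm := by exact_mod_cast hmm K (by omega) (le_refl _)
    have a2 : ((M - pad K' : ℕ) : ℝ) ≤ mm := by exact_mod_cast hmm K' h0 (by omega)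
    have a3 : ((2 * T'.card + 1 : ℝ)) ≤ 2 * t + 1 := by
      have : (T'.card : ℝ) ≤ t := by exact_mod_cast hT'c
      linarith
    have a4 : ((2 * T'.card + 1 : ℝ)) ^ 2 ≤ (2 * t + 1) ^ 2 :=
      pow_le_pow_left₀ (by positivity) a3 2
    calc ((M - pad K : ℕ) : ℝ) * ((M - pad K' : ℕ) : ℝ) * (2 * T'.card + 1) ^ 2
        ≤ (mm : ℝ) * mm * (2 * t + 1) ^ 2 := by
          refine mul_le_mul ?_ a4 (by positivity) (by positivity)
          exact mul_le_mul a1 a2 (by positivity) (by positivity)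
      _ = _ := by ring
  refine (Finset.sum_le_sum h2).trans ?_
  rw [Finset.sum_const, nsmul_eq_mul]
  have h3 : (((univ.filter (fun K' : Fin (Kmax+1) => K0 ≤ K'.val ∧ K'.val + g ≤ K.val)).card : ℕ) : ℝ)
      ≤ K.val := by
    have : (univ.filter (fun K' : Fin (Kmax+1) => K0 ≤ K'.val ∧ K'.val + g ≤ K.val)).card ≤
        (range K.val).card := by
      refine card_le_card_of_injOn (fun K' => K'.val) ?_ ?_
      · intro K' hK'
        simp only [coe_filter, mem_univ, true_and, Set.mem_ofPred_eq] at hK'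
        simp only [coe_range, Set.mem_Iio]
        omega
      · intro a _ b _ hab
        exact Fin.ext hab
    rw [card_range] at this
    exact_mod_cast this
  calc _ ≤ (K.val : ℝ) * (((mm : ℝ) ^ 2 * (2 * t + 1) ^ 2 * ε) * (fib U x).card) :=
        mul_le_mul_of_nonneg_right h3 (by positivity)
    _ = _ := by ring

/-- number of hash functions with the prescribed values for which there are at least `s` different
far prefixes -/
theorem card_farPre_le (hG : GoodLay M lay Kmax) (hM : ∀ L ≤ Kmax, pad L + 2 ≤ M)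
    (hn : ∀ L ≤ Kmax, pad L + 1 ∉ nf L) (ct : ℕ → ℕ)
    (hV : ∀ L ≤ Kmax, ∀ i < M, ((lay L).V i).card ^ 2 ≤ 2 ^ (lay L).len i)
    (hV0 : ∀ L ≤ Kmax, ∀ i ≤ pad L, ((lay L).V i).card ≤ 1)
    (K : Fin (Kmax+1)) (hct : pad K + 1 ≤ ct K) (hct2 : ct K < M)
    (K0 g : ℕ) (hg : 1 ≤ g) (n : ℕ) (ε : ℝ) (hε0 : 0 ≤ ε) (mm : ℕ)
    (hmm : ∀ L, K0 ≤ L → L ≤ K.val → M - pad L ≤ mm) (Nb : ℕ → ℕ → ℕ → ℕ)
    (hN : ∀ K' : Fin (Kmax+1), K0 ≤ K'.val → K'.val + g ≤ K.val →
      ∀ i i', pad K + 1 ≤ i → pad K' + 1 ≤ i' → i ≤ ct K → i' < M → i ∉ nf K → i' ∉ nf K' →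
      ∀ a κ₁ κ₂ a' κ₁' κ₂' co co',
      a < 2 ^ (lay K).bot (i-1) → a' < 2 ^ (lay K').bot (i'-1) →
      (ConsSet lay K K' i i' n a κ₁ κ₂ a' κ₁' κ₂' co co').card ≤ Nb K' i i')
    (hε : ∀ K' : Fin (Kmax+1), K0 ≤ K'.val → K'.val + g ≤ K.val →
      ∀ i i', pad K + 1 ≤ i → pad K' + 1 ≤ i' → i ≤ ct K → i' < M → i ∉ nf K → i' ∉ nf K' →
        (Nb K' i i' : ℝ) * phi lay K K' i i' * 2 ^ (nlen M lay nf K + nlen M lay nf K') ≤ ε)
    (s : ℕ) (x₀ : ∀ q : Ind M N Kmax, Xsp lay q) :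
    (((fib (nfI nf) x₀).filter (fun x : (∀ q : Ind M N Kmax, Xsp lay q) =>
      s ≤ (farPre lay ct K K0 g n x).card)).card : ℝ) ≤
      ((K.val : ℝ) * (mm : ℝ) ^ 2 * (2 * s + 1) ^ 2 * ε) ^ s *
        (fib (nfI nf) x₀).card := by
  classical
  have hB0 : 0 ≤ ((K.val : ℝ) * (mm : ℝ) ^ 2 * (2 * s + 1) ^ 2 * ε) := by positivity
  have hfm := factMoment_fib (X := fun q : Ind M N Kmax => Xsp lay q)
    (S := fun w : FCand M N Kmax K0 g K => Sidx lay K w.1)
    (E := fun (w : FCand M N Kmax K0 g K) y => IsSol lay K g n w.1 y)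
    (hE := fun w x y h => isSol_congr lay K g n w.1 x y h)
    (R := fun w' w => Rdiff ct K w'.1 w.1) (U₀ := U0 pad nf) (U₁ := nfI nf)
    (hU := nfI_sub_U0 pad nf) (x₁ := x₀)
    (B := ((K.val : ℝ) * (mm : ℝ) ^ 2 * (2 * s + 1) ^ 2 * ε)) hB0 s
    (fun T hT x => nnew_far_le lay pad nf hG hM hn ct hV hV0 K hct hct2 K0 g hg n ε hε0 mm hmm Nb
      hN hε s T hT x)
    s (Nat.le_succ s)
  refine le_trans ?_ hfm
  rw [Finset.card_filter]
  push_cast
  refine Finset.sum_le_sum (fun x _ => ?_)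
  split_ifs with hx
  · -- choose s solutions with different prefixes
    have h1 : 1 ≤ ntup (fun (w : FCand M N Kmax K0 g K) y => IsSol lay K g n w.1 y)
        (fun w' w => Rdiff ct K w'.1 w.1) s x := by
      obtain ⟨Q, hQsub, hQc⟩ := Finset.exists_subset_card_eq hx
      have hch : ∀ p : Q, ∃ w : FCand M N Kmax K0 g K, IsSol lay K g n w.1 x ∧
          pre (ct K) w.1.2.1 = p.1 := by
        intro p
        have hp := hQsub p.2
        unfold farPre at hp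
        rw [mem_image] at hp
        obtain ⟨w, hw, hwp⟩ := hp
        simp only [mem_filter, mem_univ, true_and] at hw
        exact ⟨⟨w, hw.2, hw.1.1⟩, hw.1, hwp⟩
      choose f hf using hch
      let e : Fin s ≃ Q := (finCongr (by simp [hQc])).trans Q.equivFin.symm
      unfold ntup
      rw [Nat.one_le_iff_ne_zero, Finset.card_ne_zero]
      refine ⟨fun j => f (e j), ?_⟩
      rw [mem_filter]
      refine ⟨mem_univ _, fun j => (hf (e j)).1, fun i j hij => ?_⟩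
      by_contra hk
      unfold Rdiff at hk
      push Not at hk
      have hk2 : pre (ct K) (f (e i)).1.2.1 = pre (ct K) (f (e j)).1.2.1 :=
        pre_eq_iff.mpr hk
      rw [(hf (e i)).2, (hf (e j)).2] at hk2
      have := e.injective (Subtype.ext hk2)
      exact absurd this (ne_of_lt hij)
    exact_mod_cast h1
  · positivity

/-- failure bound of the far part at scale `K` -/
noncomputable def failA (mm s : ℕ → ℕ) (ε : ℕ → ℝ) (K : ℕ) : ℝ :=
  2 ^ (K + 2) * ((K : ℝ) * (mm K : ℝ) ^ 2 * (2 * s K + 1) ^ 2 * ε K) ^ s K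

/-- what is needed from the layouts for the probabilistic part -/
structure FarHyp (M : ℕ) {N : ℕ} (Kmax : ℕ) (lay : ℕ → Lay N) (pad : ℕ → ℕ)
    (nf : ℕ → Finset ℕ) (ct : ℕ → ℕ) (K0 : ℕ) (g mm : ℕ → ℕ) (ε : ℕ → ℝ) : Prop where
  good : GoodLay M lay Kmax
  padM : ∀ L ≤ Kmax, pad L + 2 ≤ M
  fresh1 : ∀ L ≤ Kmax, pad L + 1 ∉ nf L
  ct1 : ∀ K ≤ Kmax, K0 ≤ K → pad K + 1 ≤ ct K
  ct2 : ∀ K ≤ Kmax, K0 ≤ K → ct K < M
  ctb : ∀ K ≤ Kmax, K0 ≤ K → K < (lay K).bot (ct K) + g K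
  card : ∀ L ≤ Kmax, ∀ i < M, ((lay L).V i).card ^ 2 ≤ 2 ^ (lay L).len i
  triv : ∀ L ≤ Kmax, ∀ i ≤ pad L, ((lay L).V i).card ≤ 1
  gpos : ∀ K, 1 ≤ g K
  eps0 : ∀ K, 0 ≤ ε K
  mm : ∀ K ≤ Kmax, ∀ L, K0 ≤ L → L ≤ K → M - pad L ≤ mm K
  far : ∀ K ≤ Kmax, ∀ K', K0 ≤ K' → K' + g K ≤ K → ∃ Nb : ℕ → ℕ → ℕ,
    (∀ i i', pad K + 1 ≤ i → pad K' + 1 ≤ i' → i ≤ ct K → i' < M → i ∉ nf K → i' ∉ nf K' →
      ∀ n a κ₁ κ₂ a' κ₁' κ₂' co co', a < 2 ^ (lay K).bot (i-1) → a' < 2 ^ (lay K').bot (i'-1) →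
      (ConsSet lay K K' i i' n a κ₁ κ₂ a' κ₁' κ₂' co co').card ≤ Nb i i') ∧
    ∀ i i', pad K + 1 ≤ i → pad K' + 1 ≤ i' → i ≤ ct K → i' < M → i ∉ nf K → i' ∉ nf K' →
        (Nb i i' : ℝ) * phi lay K K' i i' * 2 ^ (nlen M lay nf K + nlen M lay nf K') ≤ ε K

lemma log_of_elt (hG : GoodLay M lay Kmax) {K : Fin (Kmax+1)}
    {x : ∀ q : Ind M N Kmax, Xsp lay q} {a : ℕ} (ha : a ∈ AK lay K x) : Nat.log 2 a = K.val :=
  Pool.Agent.ETP.AK_log lay hG ha

/-- a far pair is determined by its prefix -/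
lemma card_FarP_le_pre (hG : GoodLay M lay Kmax) (ct : ℕ → ℕ) (K : Fin (Kmax+1)) (K0 g : ℕ)
    (hct2 : ct K < M) (hctb : K.val < (lay K).bot (ct K) + g) (n : ℕ)
    (x : ∀ q : Ind M N Kmax, Xsp lay q) :
    (FarP lay K0 g K n x).card ≤ (farPre lay ct K K0 g n x).card := by
  classical
  have hKm : K.val ≤ Kmax := by have := K.isLt; omega
  -- choose the variables of `a`
  have hex : ∀ q ∈ FarP lay K0 g K n x, ∃ w : Cand M N Kmax, (IsSol lay K g n w x ∧ K0 ≤ w.1.val) ∧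
      elt lay K x w.2.1 = q.1 ∧ elt lay w.1 x w.2.2 = q.2 := by
    intro q hq
    unfold FarP at hq
    rw [mem_biUnion] at hq
    obtain ⟨K', hK', hq⟩ := hq
    rw [mem_filter] at hK'
    unfold PK AK at hq
    rw [mem_filter, mem_product, mem_image, mem_image] at hq
    obtain ⟨⟨⟨z, hz, hzq⟩, ⟨z', hz', hzq'⟩⟩, hsum⟩ := hq
    refine ⟨(K', z, z'), ⟨⟨hK'.2.2, (mem_vars lay).mp hz, (mem_vars lay).mp hz', ?_⟩, hK'.2.1⟩,
      hzq, hzq'⟩
    show elt lay K x z + elt lay K' x z' = n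
    rw [hzq, hzq']; exact hsum
  rcases (FarP lay K0 g K n x).eq_empty_or_nonempty with hemp | ⟨q₀, hq₀⟩
  · rw [hemp]; simp
  have : Nonempty (Cand M N Kmax) := ⟨(hex q₀ hq₀).choose⟩
  choose! f hf using hex
  refine card_le_card_of_injOn (fun q => pre (ct K) (f q).2.1) ?_ ?_
  · intro q hq
    have hq' := Finset.mem_coe.mp hq
    apply Finset.mem_coe.mpr
    unfold farPre
    rw [mem_image]
    exact ⟨f q, by rw [mem_filter]; exact ⟨mem_univ _, (hf q hq').1⟩, rfl⟩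
  · intro q hq r hr hqr
    have hq' := Finset.mem_coe.mp hq
    have hr' := Finset.mem_coe.mp hr
    obtain ⟨⟨hqs, _⟩, hq1, hq2⟩ := hf q hq'
    obtain ⟨⟨hrs, _⟩, hr1, hr2⟩ := hf r hr'
    simp only at hqr
    have hzz := pre_eq_iff.mp hqr
    -- the digits below `ct` agree
    have hd : pval (lay K).bot (dig lay K x (f q).2.1) (ct K) =
        pval (lay K).bot (dig lay K x (f r).2.1) (ct K) := by
      refine pval_congr (fun m hm => ?_)
      have hmM : m < M := by omega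
      rw [dig_val lay x _ hmM, dig_val lay x _ hmM, hzz ⟨m, hmM⟩ hm]
      have hk : key (lay K) m (f q).2.1 = key (lay K) m (f r).2.1 := by
        rw [key_eq_iff]
        refine ⟨fun j hj => hzz j (by omega), fun j hj => ?_⟩
        rw [hzz j (by omega)]
      rw [hk]
    obtain ⟨u, hu⟩ := pval_split (w := dig lay K x (f q).2.1) (hG.mono K hKm) (j := ct K) (m := M)
      (by omega)
    obtain ⟨u', hu'⟩ := pval_split (w := dig lay K x (f r).2.1) (hG.mono K hKm) (j := ct K) (m := M)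
      (by omega)
    have hmod : elt lay K x (f q).2.1 ≡ elt lay K x (f r).2.1 [MOD 2 ^ (lay K).bot (ct K)] := by
      unfold elt
      rw [hu, hu', hd]
      refine Nat.ModEq.add_left _ (Nat.ModEq.add_left _ ?_)
      exact (Nat.modEq_zero_iff_dvd.mpr (Dvd.intro _ rfl)).trans
        (Nat.modEq_zero_iff_dvd.mpr (Dvd.intro _ rfl)).symm
    have hlt : ∀ w : Cand M N Kmax, IsSol lay K g n w x →
        elt lay w.1 x w.2.2 < 2 ^ (lay K).bot (ct K) := by
      intro w hw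
      have h1 := hw.1
      calc elt lay w.1 x w.2.2 < 2 ^ (w.1.val + 1) := elt_lt lay hG w.1 x w.2.2
        _ ≤ 2 ^ (lay K).bot (ct K) := Nat.pow_le_pow_right (by norm_num) (by omega)
    have hs1 : q.1 + q.2 = n := by rw [← hq1, ← hq2]; exact hqs.2.2.2
    have hs2 : r.1 + r.2 = n := by rw [← hr1, ← hr2]; exact hrs.2.2.2
    have h2 : q.2 ≡ r.2 [MOD 2 ^ (lay K).bot (ct K)] := by
      have e0 : q.1 + q.2 ≡ r.1 + r.2 [MOD 2 ^ (lay K).bot (ct K)] := by rw [hs1, hs2]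
      rw [← hq1, ← hr1] at e0
      exact Nat.ModEq.add_left_cancel hmod e0
    have h3 : q.2 = r.2 := by
      refine h2.eq_of_lt_of_lt ?_ ?_
      · rw [← hq2]; exact hlt _ hqs
      · rw [← hr2]; exact hlt _ hrs
    refine Prod.ext ?_ h3
    omega

/-- **Existence of good hash functions with prescribed values.** -/
theorem exists_goodP {ct : ℕ → ℕ} {K0 : ℕ} {g mm : ℕ → ℕ} {ε : ℕ → ℝ}
    (H : FarHyp M Kmax lay pad nf ct K0 g mm ε) (s : ℕ → ℕ)
    (x₀ : ∀ q : Ind M N Kmax, Xsp lay q)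
    (hfail : ∑ K ∈ Icc K0 Kmax, failA mm s ε K < 1) :
    ∃ x : ∀ q : Ind M N Kmax, Xsp lay q, x ∈ fib (nfI nf) x₀ ∧
      ∀ K : Fin (Kmax+1), K0 ≤ K.val → ∀ n < 2 ^ (K.val + 2),
        (FarP lay K0 (g K) K n x).card < s K := by
  classical
  by_contra hcon
  push Not at hcon
  let A : Fin (Kmax+1) → ℕ → Finset (∀ q : Ind M N Kmax, Xsp lay q) := fun K n =>
    (fib (nfI nf) x₀).filter (fun x => s K ≤ (farPre lay ct K K0 (g K) n x).card)
  let KK : Finset (Fin (Kmax+1)) := univ.filter (fun K => K0 ≤ K.val)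
  have hcov : fib (nfI nf) x₀ ⊆
      KK.biUnion (fun K => (range (2 ^ (K.val + 2))).biUnion (fun n => A K n)) := by
    intro x hx0
    obtain ⟨K, hK, n, hn, hx⟩ := hcon x hx0
    rw [mem_biUnion]
    refine ⟨K, by simp [KK, hK], ?_⟩
    rw [mem_biUnion]
    refine ⟨n, by simpa using hn, ?_⟩
    simp only [A]
    rw [mem_filter]
    refine ⟨hx0, hx.trans ?_⟩
    have hKm : K.val ≤ Kmax := by have := K.isLt; omega
    exact card_FarP_le_pre lay H.good ct K K0 (g K) (H.ct2 K hKm hK) (H.ctb K hKm hK) n x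
  have hcardX : ((fib (nfI nf) x₀).card : ℝ) > 0 := by
    exact_mod_cast card_fib_pos (nfI nf) x₀
  have h1 : ((fib (nfI nf) x₀).card : ℝ) ≤
      ∑ K ∈ KK, ∑ n ∈ range (2 ^ (K.val + 2)), ((A K n).card : ℝ) := by
    have h2 := card_le_card hcov
    have h3 : (KK.biUnion (fun K => (range (2 ^ (K.val + 2))).biUnion (fun n => A K n))).card ≤
        ∑ K ∈ KK, ∑ n ∈ range (2 ^ (K.val + 2)), (A K n).card := by
      refine card_biUnion_le.trans (Finset.sum_le_sum (fun K _ => ?_))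
      exact card_biUnion_le
    have h4 := h2.trans h3
    exact_mod_cast h4
  have h2 : ∀ K ∈ KK, ∑ n ∈ range (2 ^ (K.val + 2)), ((A K n).card : ℝ) ≤
      failA mm s ε K * (fib (nfI nf) x₀).card := by
    intro K hK
    have hK0 : K0 ≤ K.val := by simpa [KK] using hK
    have hKm : K.val ≤ Kmax := by have := K.isLt; omega
    have hA : ∀ n, ((A K n).card : ℝ) ≤
        ((K.val : ℝ) * (mm K : ℝ) ^ 2 * (2 * s K + 1) ^ 2 * ε K) ^ s K *
        (fib (nfI nf) x₀).card := by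
      intro n
      have hch : ∀ K' : ℕ, K0 ≤ K' → K' + g K ≤ K.val → ∃ Nb : ℕ → ℕ → ℕ,
        (∀ i i', pad K + 1 ≤ i → pad K' + 1 ≤ i' → i ≤ ct K → i' < M → i ∉ nf K → i' ∉ nf K' →
        ∀ n a κ₁ κ₂ a' κ₁' κ₂' co co', a < 2 ^ (lay K).bot (i-1) → a' < 2 ^ (lay K').bot (i'-1) →
        (ConsSet lay K K' i i' n a κ₁ κ₂ a' κ₁' κ₂' co co').card ≤ Nb i i') ∧
        ∀ i i', pad K + 1 ≤ i → pad K' + 1 ≤ i' → i ≤ ct K → i' < M → i ∉ nf K → i' ∉ nf K' →
        (Nb i i' : ℝ) * phi lay K K' i i' * 2 ^ (nlen M lay nf K + nlen M lay nf K') ≤ ε K :=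
        fun K' h1 h2 => H.far K hKm K' h1 h2
      choose! Nb hNb using hch
      exact card_farPre_le lay pad nf H.good H.padM H.fresh1 ct H.card H.triv K
        (H.ct1 K hKm hK0) (H.ct2 K hKm hK0) K0 (g K) (H.gpos K) n (ε K) (H.eps0 K) (mm K)
        (fun L h1 h2 => H.mm K hKm L h1 h2) Nb
        (fun K' h1 h2 i i' a1 a2 a3 a4 a5 a6 => (hNb K' h1 h2).1 i i' a1 a2 a3 a4 a5 a6 n)
        (fun K' h1 h2 i i' a1 a2 a3 a4 a5 a6 => (hNb K' h1 h2).2 i i' a1 a2 a3 a4 a5 a6)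
        (s K) x₀
    calc ∑ n ∈ range (2 ^ (K.val + 2)), ((A K n).card : ℝ)
        ≤ ∑ n ∈ range (2 ^ (K.val + 2)),
          ((K.val : ℝ) * (mm K : ℝ) ^ 2 * (2 * s K + 1) ^ 2 * ε K) ^ s K *
          (fib (nfI nf) x₀).card := Finset.sum_le_sum (fun n _ => hA n)
      _ = failA mm s ε K * (fib (nfI nf) x₀).card := by
          rw [sum_const, card_range, nsmul_eq_mul]
          unfold failA
          push_cast
          ring
  have h3 : ∑ K ∈ KK, failA mm s ε K.val ≤ ∑ K ∈ Icc K0 Kmax, failA mm s ε K := by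
    have hinj : Set.InjOn (fun K : Fin (Kmax+1) => K.val) (KK : Set (Fin (Kmax+1))) :=
      fun a _ b _ hab => Fin.ext hab
    rw [← Finset.sum_image (f := fun K : ℕ => failA mm s ε K) hinj]
    refine Finset.sum_le_sum_of_subset_of_nonneg ?_ ?_
    · intro K hK
      rw [mem_image] at hK
      obtain ⟨K', hK', rfl⟩ := hK
      rw [mem_Icc]
      have : K0 ≤ K'.val := by simpa [KK] using hK'
      exact ⟨this, by have := K'.isLt; omega⟩
    · intro K _ _
      unfold failA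
      have := H.eps0 K
      positivity
  have h4 : ((fib (nfI nf) x₀).card : ℝ) ≤
      (∑ K ∈ Icc K0 Kmax, failA mm s ε K) * (fib (nfI nf) x₀).card := by
    calc ((fib (nfI nf) x₀).card : ℝ) ≤ _ := h1
      _ ≤ ∑ K ∈ KK, failA mm s ε K.val * (fib (nfI nf) x₀).card := Finset.sum_le_sum h2
      _ = (∑ K ∈ KK, failA mm s ε K.val) * (fib (nfI nf) x₀).card := by rw [Finset.sum_mul]
      _ ≤ _ := mul_le_mul_of_nonneg_right h3 hcardX.le
  nlinarith

end

end Pool.Agent.E2F
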